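import Mathlib
import Pool.Agent.V1198.Ienv
import Pool.Agent.V1198.Ienv2

/-!
# MP_1f58a3, Q1: a negative answer
-/

set_option autoImplicit false

noncomputable section

open Filter Topology ZeroAtInfty BoundedContinuousFunction

namespace Pool.Agent.Results.MP_1f58a3_an.NoConstant

open Pool.Agent.V1198.IE

/-- `s_η(x) = inf_k η(x_k) - sup_{ξ ∈ A} limsup_k ξ(x_k)`. -/
def sep {X : Type} [NormedAddCommGroup X] [NormedSpace ℝ X] (A : Set (X →L[ℝ] ℝ))
    (η : X →L[ℝ] ℝ) (x : ℕ → X) : EReal :=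
  (⨅ k, (η (x k) : EReal)) - ⨆ ξ ∈ A, limsup (fun k => (ξ (x k) : EReal)) atTop

/-- `d₂(η)`: the supremum of `s_η(x)` over all sequences in the unit ball. -/
def d2 {X : Type} [NormedAddCommGroup X] [NormedSpace ℝ X] (A : Set (X →L[ℝ] ℝ))
    (η : X →L[ℝ] ℝ) : EReal :=
  ⨆ (x : ℕ → X) (_ : ∀ k, ‖x k‖ ≤ 1), sep A η x

/-- `d₁(η)`: the distance of `η` to the envelope. -/
def d1 {X : Type} [NormedAddCommGroup X] [NormedSpace ℝ X] (A : Set (X →L[ℝ] ℝ))
    (η : X →L[ℝ] ℝ) : EReal :=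
  (Metric.infEDist η (Ienv A) : EReal)

/-- There is no constant `c` with `d₁ ≤ c d₂`. -/
theorem result : ∀ c : ℝ, 1 ≤ c →
    ∃ (X : Type) (_ : NormedAddCommGroup X) (_ : NormedSpace ℝ X) (_ : CompleteSpace X)
      (A : Set (X →L[ℝ] ℝ)) (η : X →L[ℝ] ℝ), A.Nonempty ∧ Bornology.IsBounded A ∧
        (c : EReal) * d2 A η < d1 A η := by
  intro c hc
  obtain ⟨T, hT, ⟨O⟩⟩ := exists_omegaOne
  let _ : TopologicalSpace T := ⊥
  have _ : DiscreteTopology T := ⟨rfl⟩
  have hT0 : Nonempty T := by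
    by_contra h
    rw [not_nonempty_iff] at h
    exact Set.not_countable_univ (Set.to_countable (Set.univ : Set T))
  refine ⟨C₀(T, ℝ) × (T →ᵇ ℝ), inferInstance, inferInstance, inferInstance,
    {φ | ∃ t, φ = xi (c + 1) 1 t}, 0, ?_, ?_, ?_⟩
  · exact ⟨_, Classical.arbitrary T, rfl⟩
  · rw [isBounded_iff_forall_norm_le]
    refine ⟨|c + 1| + |1|, ?_⟩
    rintro _ ⟨t, rfl⟩
    exact norm_xi_le _ _ t
  · set A : Set ((C₀(T, ℝ) × (T →ᵇ ℝ)) →L[ℝ] ℝ) := {φ | ∃ t, φ = xi (c + 1) 1 t} with hAdef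
    have h2 : d2 A 0 ≤ 1 := by
      refine iSup₂_le fun x hx => ?_
      have hcount : (⋃ k, {t | (x k).1 t ≠ 0}).Countable :=
        Set.countable_iUnion fun k => c0_countable _
      obtain ⟨t, ht⟩ : ∃ t, t ∉ ⋃ k, {t | (x k).1 t ≠ 0} := by
        by_contra hcon
        push Not at hcon
        exact Set.not_countable_univ (hcount.mono fun t _ => hcon t)
      have hval : ∀ k, (-1 : ℝ) ≤ xi (c + 1) 1 t (x k) := fun k => by
        have h3 : (x k).1 t = 0 := by
          by_contra h4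
          exact ht (Set.mem_iUnion.mpr ⟨k, h4⟩)
        rw [xi_apply, h3, mul_zero, zero_add, one_mul]
        have h4 : |(x k).2 t| ≤ 1 :=
          (((x k).2.norm_coe_le_norm t).trans (norm_snd_le _)).trans (hx k)
        exact (abs_le.mp h4).1
      have hlim : (-1 : EReal) ≤ limsup (fun k => (xi (c + 1) 1 t (x k) : EReal)) atTop := by
        have h3 : limsup (fun _ : ℕ => (-1 : EReal)) atTop = -1 := limsup_const _
        rw [← h3]
        refine limsup_le_limsup (Filter.Eventually.of_forall fun k => ?_)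
        have := EReal.coe_le_coe_iff.mpr (hval k)
        simpa using this
      have hsup : (-1 : EReal) ≤ ⨆ ξ ∈ A, limsup (fun k => (ξ (x k) : EReal)) atTop :=
        hlim.trans (le_iSup₂_of_le (xi (c + 1) 1 t) ⟨t, rfl⟩ le_rfl)
      have hinf : (⨅ k, (((0 : (C₀(T, ℝ) × (T →ᵇ ℝ)) →L[ℝ] ℝ) (x k) : ℝ) : EReal)) ≤ 0 :=
        iInf_le_of_le 0 (le_of_eq (by simp))
      calc sep A 0 x ≤ 0 - (-1) := EReal.sub_le_sub hinf hsup
        _ = 1 := by simp
    have h1 : ((c + 1 : ℝ) : EReal) ≤ d1 A 0 := by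
      have h3 : ENNReal.ofReal (c + 1) ≤ Metric.infEDist 0 (Ienv A) := by
        refine Metric.le_infEDist.mpr fun η hη => ?_
        have h4 : c + 1 ≤ ‖η‖ := by
          refine key_estimate O (M := c + 1) (D := c + 1) (by linarith) (by linarith) ?_ hη
          rintro φ ⟨t, rfl⟩
          exact ⟨c + 1, 1, t, zero_le_one, rfl, le_rfl, by rw [mul_one]⟩
        rw [edist_dist, dist_zero_left]
        exact ENNReal.ofReal_le_ofReal h4
      have h5 : ((ENNReal.ofReal (c + 1) : ENNReal) : EReal) ≤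
          ((Metric.infEDist 0 (Ienv A) : ENNReal) : EReal) := EReal.coe_ennreal_le_coe_ennreal_iff.mpr h3
      rw [EReal.coe_ennreal_ofReal, max_eq_left (by linarith)] at h5
      exact h5
    calc (c : EReal) * d2 A 0 ≤ (c : EReal) * 1 :=
          mul_le_mul_of_nonneg_left h2 (EReal.coe_nonneg.mpr (by linarith))
      _ = ((c : ℝ) : EReal) := mul_one _
      _ < ((c + 1 : ℝ) : EReal) := EReal.coe_lt_coe_iff.mpr (by linarith)
      _ ≤ d1 A 0 := h1

end Pool.Agent.Results.MP_1f58a3_an.NoConstant
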